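import Pool.Agent.Q116.IU.Defs

/-!
Closure properties of the analytic sets and a universal analytic set.
-/

set_option autoImplicit false

namespace Pool.Agent.Q116.IU

open MeasureTheory

variable {X Y : Type} [MeasurableSpace X] [MeasurableSpace Y]

theorem _root_.MeasurableSet.ana {A : Set X} (h : MeasurableSet A) : Analytic A :=
  ⟨Prod.fst ⁻¹' A, measurable_fst h, fun _ => ⟨fun hx => ⟨fun _ => 0, hx⟩, fun ⟨_, hx⟩ => hx⟩⟩

theorem Analytic.preimage {A : Set Y} (h : Analytic A) {f : X → Y} (hf : Measurable f) :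
    Analytic (f ⁻¹' A) := by
  obtain ⟨B, hB, hB2⟩ := h
  refine ⟨(fun q : X × (ℕ → ℕ) => (f q.1, q.2)) ⁻¹' B, ?_, fun x => hB2 (f x)⟩
  exact ((hf.comp measurable_fst).prodMk measurable_snd) hB

/-- The two parts of a sequence. -/
def ev (y : ℕ → ℕ) : ℕ → ℕ := fun n => y (2 * n)

def od (y : ℕ → ℕ) : ℕ → ℕ := fun n => y (2 * n + 1)

def mix (u v : ℕ → ℕ) : ℕ → ℕ := fun n => if n % 2 = 0 then u (n / 2) else v (n / 2)

theorem ev_mix (u v : ℕ → ℕ) : ev (mix u v) = u := by
  funext n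
  have h1 : 2 * n % 2 = 0 := by omega
  have h2 : 2 * n / 2 = n := by omega
  simp [ev, mix, h1, h2]

theorem od_mix (u v : ℕ → ℕ) : od (mix u v) = v := by
  funext n
  have h2 : (2 * n + 1) / 2 = n := by omega
  simp [od, mix, h2]

theorem ev_meas : Measurable ev := measurable_pi_lambda _ fun n => measurable_pi_apply (2 * n)

theorem od_meas : Measurable od := measurable_pi_lambda _ fun n => measurable_pi_apply (2 * n + 1)

theorem Analytic.inter {A A' : Set X} (h : Analytic A) (h' : Analytic A') :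
    Analytic (A ∩ A') := by
  obtain ⟨B, hB, hB2⟩ := h
  obtain ⟨B', hB', hB2'⟩ := h'
  refine ⟨(fun q : X × (ℕ → ℕ) => (q.1, ev q.2)) ⁻¹' B ∩
    (fun q : X × (ℕ → ℕ) => (q.1, od q.2)) ⁻¹' B', ?_, fun x => ?_⟩
  · exact ((measurable_fst.prodMk (ev_meas.comp measurable_snd)) hB).inter
      ((measurable_fst.prodMk (od_meas.comp measurable_snd)) hB')
  · constructor
    · rintro ⟨h1, h2⟩
      obtain ⟨u, hu⟩ := (hB2 x).1 h1
      obtain ⟨v, hv⟩ := (hB2' x).1 h2
      refine ⟨mix u v, ?_, ?_⟩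
      · change (x, ev (mix u v)) ∈ B
        rwa [ev_mix]
      · change (x, od (mix u v)) ∈ B'
        rwa [od_mix]
    · rintro ⟨y, h1, h2⟩
      exact ⟨(hB2 x).2 ⟨_, h1⟩, (hB2' x).2 ⟨_, h2⟩⟩

theorem Analytic.iUnion {A : ℕ → Set X} (h : ∀ n, Analytic (A n)) : Analytic (⋃ n, A n) := by
  choose B hB hB2 using h
  refine ⟨⋃ n, (fun q : X × (ℕ → ℕ) => (q.1, od q.2)) ⁻¹' (B n), ?_, fun x => ?_⟩
  · exact MeasurableSet.iUnion fun n => (measurable_fst.prodMk (od_meas.comp measurable_snd)) (hB n)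
  · constructor
    · intro hx
      obtain ⟨n, hn⟩ := Set.mem_iUnion.1 hx
      obtain ⟨y, hy⟩ := (hB2 n x).1 hn
      refine ⟨mix y y, Set.mem_iUnion.2 ⟨n, ?_⟩⟩
      change (x, od (mix y y)) ∈ B n
      rwa [od_mix]
    · rintro ⟨y, hy⟩
      obtain ⟨n, hn⟩ := Set.mem_iUnion.1 hy
      exact Set.mem_iUnion.2 ⟨n, (hB2 n x).2 ⟨_, hn⟩⟩

theorem Analytic.union {A A' : Set X} (h : Analytic A) (h' : Analytic A') :
    Analytic (A ∪ A') := by
  have h2 : A ∪ A' = ⋃ n : ℕ, (if n = 0 then A else A') := by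
    ext x
    simp only [Set.mem_union, Set.mem_iUnion]
    constructor
    · rintro (hx | hx)
      · exact ⟨0, by simpa using hx⟩
      · exact ⟨1, by simpa using hx⟩
    · rintro ⟨n, hn⟩
      by_cases h0 : n = 0
      · left
        simpa [h0] using hn
      · right
        simpa [h0] using hn
  rw [h2]
  refine Analytic.iUnion fun n => ?_
  by_cases h0 : n = 0
  · simpa [h0] using h
  · simpa [h0] using h'

theorem Analytic.proj {A : Set (X × (ℕ → ℕ))} (h : Analytic A) :
    Analytic {x | ∃ y, (x, y) ∈ A} := by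
  obtain ⟨B, hB, hB2⟩ := h
  refine ⟨(fun q : X × (ℕ → ℕ) => ((q.1, ev q.2), od q.2)) ⁻¹' B, ?_, fun x => ?_⟩
  · exact ((measurable_fst.prodMk (ev_meas.comp measurable_snd)).prodMk
      (od_meas.comp measurable_snd)) hB
  · constructor
    · rintro ⟨u, hu⟩
      obtain ⟨v, hv⟩ := (hB2 _).1 hu
      refine ⟨mix u v, ?_⟩
      change ((x, ev (mix u v)), od (mix u v)) ∈ B
      rwa [ev_mix, od_mix]
    · rintro ⟨y, hy⟩
      exact ⟨ev y, (hB2 _).2 ⟨_, hy⟩⟩

/-- There is a universal analytic set for each Polish space. -/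
theorem exists_universal (T : Type) [TopologicalSpace T] [PolishSpace T] [MeasurableSpace T]
    [BorelSpace T] : ∃ W : Set ((ℕ → ℕ) × T), Analytic W ∧
      ∀ A : Set T, Analytic A → ∃ c, ∀ t, t ∈ A ↔ (c, t) ∈ W := by
  obtain ⟨b, hb, hbne, hbas⟩ := TopologicalSpace.exists_countable_basis (T × (ℕ → ℕ))
  by_cases hbe : b = ∅
  · refine ⟨∅, MeasurableSet.empty.ana, fun A hA => ⟨fun _ => 0, fun t => ?_⟩⟩
    exfalso
    have h := hbas.sUnion_eq
    rw [hbe, Set.sUnion_empty] at h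
    have : (t, fun _ : ℕ => 0) ∈ (Set.univ : Set (T × (ℕ → ℕ))) := trivial
    rw [← h] at this
    exact this
  obtain ⟨e, he⟩ := hb.exists_eq_range (Set.nonempty_iff_ne_empty.2 hbe)
  have hopen : ∀ n, IsOpen (e n) := fun n => hbas.isOpen (by rw [he]; exact ⟨n, rfl⟩)
  refine ⟨{p | ∃ y, ∀ n, p.1 n = 1 → (p.2, y) ∉ e n}, ?_, ?_⟩
  · refine ⟨⋂ n, {q : ((ℕ → ℕ) × T) × (ℕ → ℕ) | q.1.1 n = 1 → (q.1.2, q.2) ∉ e n}, ?_,
      fun x => ?_⟩
    · refine MeasurableSet.iInter fun n => ?_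
      have h1 : MeasurableSet {q : ((ℕ → ℕ) × T) × (ℕ → ℕ) | q.1.1 n = 1} :=
        ((measurable_pi_apply n).comp (measurable_fst.comp measurable_fst))
          (measurableSet_singleton 1)
      have h2 : MeasurableSet {q : ((ℕ → ℕ) × T) × (ℕ → ℕ) | (q.1.2, q.2) ∈ e n} :=
        ((measurable_snd.comp measurable_fst).prodMk measurable_snd) (hopen n).measurableSet
      have h3 : {q : ((ℕ → ℕ) × T) × (ℕ → ℕ) | q.1.1 n = 1 → (q.1.2, q.2) ∉ e n} =
          {q | q.1.1 n = 1}ᶜ ∪ {q | (q.1.2, q.2) ∈ e n}ᶜ := by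
        ext q
        simp only [Set.mem_ofPred_eq, Set.mem_union, Set.mem_compl_iff]
        tauto
      rw [h3]
      exact h1.compl.union h2.compl
    · simp only [Set.mem_ofPred_eq, Set.mem_iInter]
  · intro A hA
    obtain ⟨B, hB, hB2⟩ := hA
    have hA2 : AnalyticSet A := by
      have h1 : A = Prod.fst '' B := by
        ext x
        rw [hB2]
        simp
      rw [h1]
      exact hB.analyticSet.image_of_continuous continuous_fst
    have hcl : ∃ C : Set (T × (ℕ → ℕ)), IsClosed C ∧ ∀ t, t ∈ A ↔ ∃ y, (t, y) ∈ C := by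
      rw [AnalyticSet] at hA2
      rcases hA2 with h | ⟨f, hf, hr⟩
      · exact ⟨∅, isClosed_empty, fun t => by simp [h]⟩
      · refine ⟨{q | f q.2 = q.1}, isClosed_eq (hf.comp continuous_snd) continuous_fst,
          fun t => ?_⟩
        rw [← hr]
        rfl
    obtain ⟨C, hC, hC2⟩ := hcl
    classical
    refine ⟨fun n => if Disjoint (e n) C then 1 else 0, fun t => ?_⟩
    rw [hC2]
    refine exists_congr fun y => ?_
    constructor
    · intro h n hn hmem
      have hd : Disjoint (e n) C := by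
        by_contra hcon
        simp [hcon] at hn
      exact Set.disjoint_left.1 hd hmem h
    · intro h
      by_contra hcon
      obtain ⟨u, hu, hmem, hsub⟩ := hbas.exists_subset_of_mem_open
        (show (t, y) ∈ Cᶜ from hcon) hC.isOpen_compl
      rw [he] at hu
      obtain ⟨n, rfl⟩ := hu
      refine h n ?_ hmem
      have hd : Disjoint (e n) C := Set.disjoint_left.2 fun z hz hz' => hsub hz hz'
      simp [hd]

theorem Analytic.measurable_of_compl {T : Type} [TopologicalSpace T] [PolishSpace T]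
    [MeasurableSpace T] [BorelSpace T] {A : Set T} (h : MeasurableSet A) : Analytic Aᶜ :=
  h.compl.ana

/-- There is an analytic set which is not Borel. -/
theorem exists_nonborel : ∃ A : Set (ℕ → ℕ), Analytic A ∧ ¬ MeasurableSet A := by
  obtain ⟨W, hW, hW2⟩ := exists_universal (ℕ → ℕ)
  refine ⟨{x | (x, x) ∈ W}, hW.preimage (measurable_id.prodMk measurable_id), fun h => ?_⟩
  obtain ⟨c, hc⟩ := hW2 _ h.compl.ana
  have := hc c
  simp only [Set.mem_compl_iff, Set.mem_ofPred_eq] at this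
  tauto

end Pool.Agent.Q116.IU
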