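import Mathlib

/-!
Analytic sets in standard Borel spaces, analytic quasi-orders, invariant universality.
-/

set_option autoImplicit false

namespace Pool.Agent.Q116.IU

/-- Analytic sets: projections of Borel subsets of `X × ω^ω`. -/
def Analytic {X : Type} [MeasurableSpace X] (A : Set X) : Prop :=
  ∃ B : Set (X × (ℕ → ℕ)), MeasurableSet B ∧ ∀ x, x ∈ A ↔ ∃ y, (x, y) ∈ B

/-- Analytic quasi-orders. -/
structure AnalyticQO {X : Type} [MeasurableSpace X] (R : X → X → Prop) : Prop where
  refl : ∀ x, R x x
  trans : ∀ x y z, R x y → R y z → R x z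
  analytic : Analytic {p : X × X | R p.1 p.2}

/-- Analytic equivalence relations. -/
structure AnalyticEq {X : Type} [MeasurableSpace X] (R : X → X → Prop) : Prop where
  qo : AnalyticQO R
  symm : ∀ x y, R x y → R y x

/-- Borel reducibility. -/
def BRed {X Y : Type} [MeasurableSpace X] [MeasurableSpace Y] (R : X → X → Prop)
    (R' : Y → Y → Prop) : Prop := ∃ f : X → Y, Measurable f ∧ ∀ x y, R x y ↔ R' (f x) (f y)

/-- The pair `(S, E)` is invariantly universal. -/
def InvUniv {X : Type} [MeasurableSpace X] (S E : X → X → Prop) : Prop :=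
  ∀ (Z : Type) [MeasurableSpace Z] [StandardBorelSpace Z] (R : Z → Z → Prop), AnalyticQO R →
    ∃ B : Set X, MeasurableSet B ∧ (∀ x y, E x y → x ∈ B → y ∈ B) ∧
      BRed (fun x y : B => S x y) R ∧ BRed R (fun x y : B => S x y)

end Pool.Agent.Q116.IU
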