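import Pool.Agent.Q116.IU.Ana

/-!
A counterexample for invariant universality under Borel reducible subrelations.
-/

set_option autoImplicit false

namespace Pool.Agent.Q116.IU

open MeasureTheory Relation

abbrev Y := ℕ → ℕ

theorem exists_W : ∃ W : Set (Y × (Y × Y)), Analytic W ∧
    ∀ A : Set (Y × Y), Analytic A → ∃ c, ∀ t, t ∈ A ↔ (c, t) ∈ W := exists_universal (Y × Y)

/-- A universal analytic set. -/
def W : Set (Y × (Y × Y)) := exists_W.choose

theorem W_analytic : Analytic W := exists_W.choose_spec.1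

theorem W_univ (A : Set (Y × Y)) (hA : Analytic A) : ∃ c, ∀ t, t ∈ A ↔ (c, t) ∈ W :=
  exists_W.choose_spec.2 A hA

/-- The universal family of analytic quasi-orders. -/
def U (c p q : Y) : Prop := ReflTransGen (fun p q => (c, (p, q)) ∈ W) p q

theorem eq_meas {P : Type} [MeasurableSpace P] {f g : P → Y} (hf : Measurable f)
    (hg : Measurable g) : MeasurableSet {p | f p = g p} := by
  have h : {p | f p = g p} = ⋂ n, {p | f p n = g p n} := by
    ext p
    simp only [Set.mem_iInter]
    exact funext_iff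
  rw [h]
  refine MeasurableSet.iInter fun n => ?_
  have h1 : MeasurableSet {q : ℕ × ℕ | q.1 = q.2} := (Set.to_countable _).measurableSet
  exact (((measurable_pi_apply n).comp hf).prodMk ((measurable_pi_apply n).comp hg)) h1

theorem eq_meas3 {P : Type} [MeasurableSpace P] {f g : P → Y × (Y × Y)} (hf : Measurable f)
    (hg : Measurable g) : MeasurableSet {p | f p = g p} := by
  have h : {p | f p = g p} = {p | (f p).1 = (g p).1} ∩ ({p | (f p).2.1 = (g p).2.1} ∩
      {p | (f p).2.2 = (g p).2.2}) := by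
    ext p
    change f p = g p ↔ ((f p).1 = (g p).1 ∧ (f p).2.1 = (g p).2.1 ∧ (f p).2.2 = (g p).2.2)
    rw [Prod.ext_iff, Prod.ext_iff]
  rw [h]
  exact (eq_meas (measurable_fst.comp hf) (measurable_fst.comp hg)).inter
    ((eq_meas (measurable_fst.comp (measurable_snd.comp hf))
      (measurable_fst.comp (measurable_snd.comp hg))).inter
    (eq_meas (measurable_snd.comp (measurable_snd.comp hf))
      (measurable_snd.comp (measurable_snd.comp hg))))

/-- The iterations. -/
def it : ℕ → Set (Y × (Y × Y))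
  | 0 => {t | t.2.1 = t.2.2}
  | n + 1 => {t | ∃ r : Y, (t.1, (t.2.1, r)) ∈ it n ∧ (t.1, (r, t.2.2)) ∈ W}

theorem it_analytic (n : ℕ) : Analytic (it n) := by
  induction n with
  | zero =>
    have h : IsClosed {t : Y × (Y × Y) | t.2.1 = t.2.2} :=
      isClosed_eq (continuous_fst.comp continuous_snd) (continuous_snd.comp continuous_snd)
    exact h.measurableSet.ana
  | succ n ih =>
    have h1 : Measurable fun q : (Y × (Y × Y)) × Y => (q.1.1, (q.1.2.1, q.2)) :=
      (measurable_fst.comp measurable_fst).prodMk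
        ((measurable_fst.comp (measurable_snd.comp measurable_fst)).prodMk measurable_snd)
    have h2 : Measurable fun q : (Y × (Y × Y)) × Y => (q.1.1, (q.2, q.1.2.2)) :=
      (measurable_fst.comp measurable_fst).prodMk
        (measurable_snd.prodMk (measurable_snd.comp (measurable_snd.comp measurable_fst)))
    exact Analytic.proj ((ih.preimage h1).inter (W_analytic.preimage h2))

theorem U_iff (c p q : Y) : U c p q ↔ ∃ n, (c, (p, q)) ∈ it n := by
  constructor
  · intro h
    induction h with
    | refl => exact ⟨0, rfl⟩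
    | tail _ h2 ih =>
      obtain ⟨n, hn⟩ := ih
      exact ⟨n + 1, _, hn, h2⟩
  · rintro ⟨n, hn⟩
    induction n generalizing q with
    | zero =>
      have : p = q := hn
      rw [this]
      exact ReflTransGen.refl
    | succ n ih =>
      obtain ⟨r, h1, h2⟩ := hn
      exact (ih r h1).tail h2

theorem U_analytic : Analytic {t : Y × (Y × Y) | U t.1 t.2.1 t.2.2} := by
  have h : {t : Y × (Y × Y) | U t.1 t.2.1 t.2.2} = ⋃ n, it n := by
    ext t
    rw [Set.mem_iUnion]
    exact U_iff _ _ _
  rw [h]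
  exact Analytic.iUnion it_analytic

theorem U_univ {R : Y → Y → Prop} (hR : AnalyticQO R) : ∃ c, ∀ p q, R p q ↔ U c p q := by
  obtain ⟨c, hc⟩ := W_univ _ hR.analytic
  refine ⟨c, fun p q => ⟨fun h => ReflTransGen.single ((hc (p, q)).1 h), fun h => ?_⟩⟩
  induction h with
  | refl => exact hR.refl _
  | tail _ h2 ih => exact hR.trans _ _ _ ih ((hc (_, _)).2 h2)

/-- The non-Borel set. -/
def A : Set Y := exists_nonborel.choose

theorem A_analytic : Analytic A := exists_nonborel.choose_spec.1

theorem A_not : ¬ MeasurableSet A := exists_nonborel.choose_spec.2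

/-- The quasi-order on the first part. -/
def S1 (u v : Y × (Y × Y)) : Prop :=
  u = v ∨ (u.1 ∈ A ∧ v.1 ∈ A ∧ u.2.1 = v.2.1 ∧ U u.2.1 u.2.2 v.2.2)

theorem S1_refl (u : Y × (Y × Y)) : S1 u u := Or.inl rfl

theorem S1_trans {u v w : Y × (Y × Y)} (h : S1 u v) (h' : S1 v w) : S1 u w := by
  rcases h with rfl | ⟨h1, h2, h3, h4⟩
  · exact h'
  · rcases h' with rfl | ⟨h5, h6, h7, h8⟩
    · exact Or.inr ⟨h1, h2, h3, h4⟩
    · refine Or.inr ⟨h1, h6, h3.trans h7, ?_⟩
      rw [← h3] at h8
      exact h4.trans h8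

theorem S1_analytic : Analytic {p : (Y × (Y × Y)) × (Y × (Y × Y)) | S1 p.1 p.2} := by
  have h1 : Analytic {p : (Y × (Y × Y)) × (Y × (Y × Y)) | p.1 = p.2} :=
    (eq_meas3 measurable_fst measurable_snd).ana
  have h2 : Analytic {p : (Y × (Y × Y)) × (Y × (Y × Y)) | p.1.1 ∈ A} :=
    A_analytic.preimage (measurable_fst.comp measurable_fst)
  have h3 : Analytic {p : (Y × (Y × Y)) × (Y × (Y × Y)) | p.2.1 ∈ A} :=
    A_analytic.preimage (measurable_fst.comp measurable_snd)
  have h4 : Analytic {p : (Y × (Y × Y)) × (Y × (Y × Y)) | p.1.2.1 = p.2.2.1} :=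
    (eq_meas (measurable_fst.comp (measurable_snd.comp measurable_fst))
      (measurable_fst.comp (measurable_snd.comp measurable_snd))).ana
  have h5 : Analytic {p : (Y × (Y × Y)) × (Y × (Y × Y)) | U p.1.2.1 p.1.2.2 p.2.2.2} :=
    U_analytic.preimage (f := fun p : (Y × (Y × Y)) × (Y × (Y × Y)) =>
      (p.1.2.1, (p.1.2.2, p.2.2.2)))
      ((measurable_fst.comp (measurable_snd.comp measurable_fst)).prodMk
        ((measurable_snd.comp (measurable_snd.comp measurable_fst)).prodMk
          (measurable_snd.comp (measurable_snd.comp measurable_snd))))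
  exact h1.union (h2.inter (h3.inter (h4.inter h5)))

/-- The space. -/
abbrev X := ℕ × (Y × (Y × Y))

/-- The quasi-order. -/
def S (s t : X) : Prop := (s.1 = 0 ∧ t.1 = 0 ∧ S1 s.2 t.2) ∨ (s.1 ≠ 0 ∧ t.1 ≠ 0)

/-- The equivalence relation `E = E_S`. -/
def E (s t : X) : Prop := S s t ∧ S t s

/-- The equivalence relation `F`. -/
def F (s t : X) : Prop := s = t ∨ (s.1 = 1 ∧ t.1 = 1 ∧ S1 s.2 t.2 ∧ S1 t.2 s.2)

theorem S_qo : AnalyticQO S := by
  refine ⟨fun s => ?_, fun s t u h h' => ?_, ?_⟩
  · by_cases h : s.1 = 0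
    · exact Or.inl ⟨h, h, S1_refl _⟩
    · exact Or.inr ⟨h, h⟩
  · rcases h with ⟨h1, h2, h3⟩ | ⟨h1, h2⟩
    · rcases h' with ⟨_, h5, h6⟩ | ⟨h4, _⟩
      · exact Or.inl ⟨h1, h5, S1_trans h3 h6⟩
      · exact absurd h2 h4
    · rcases h' with ⟨h4, _, _⟩ | ⟨_, h5⟩
      · exact absurd h4 h2
      · exact Or.inr ⟨h1, h5⟩
  · have h1 : MeasurableSet {p : X × X | p.1.1 = 0} :=
      (measurable_fst.comp measurable_fst) (measurableSet_singleton 0)
    have h2 : MeasurableSet {p : X × X | p.2.1 = 0} :=
      (measurable_fst.comp measurable_snd) (measurableSet_singleton 0)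
    have h3 : Analytic {p : X × X | S1 p.1.2 p.2.2} :=
      S1_analytic.preimage (f := fun p : X × X => (p.1.2, p.2.2))
        ((measurable_snd.comp measurable_fst).prodMk (measurable_snd.comp measurable_snd))
    exact (h1.ana.inter (h2.ana.inter h3)).union (h1.compl.ana.inter h2.compl.ana)

theorem swap_analytic {R : X → X → Prop} (h : Analytic {p : X × X | R p.1 p.2}) :
    Analytic {p : X × X | R p.2 p.1} :=
  h.preimage (f := fun p : X × X => (p.2, p.1)) (measurable_snd.prodMk measurable_fst)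

theorem E_eq : AnalyticEq E := by
  refine ⟨⟨fun s => ⟨S_qo.refl s, S_qo.refl s⟩, fun s t u h h' => ⟨S_qo.trans _ _ _ h.1 h'.1,
    S_qo.trans _ _ _ h'.2 h.2⟩, ?_⟩, fun s t h => ⟨h.2, h.1⟩⟩
  exact S_qo.analytic.inter (swap_analytic S_qo.analytic)

theorem F_eq : AnalyticEq F := by
  refine ⟨⟨fun s => Or.inl rfl, fun s t u h h' => ?_, ?_⟩, fun s t h => ?_⟩
  · rcases h with rfl | ⟨h1, h2, h3, h4⟩
    · exact h'
    · rcases h' with rfl | ⟨_, h6, h7, h8⟩
      · exact Or.inr ⟨h1, h2, h3, h4⟩
      · exact Or.inr ⟨h1, h6, S1_trans h3 h7, S1_trans h8 h4⟩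
  · have h0 : Analytic {p : X × X | p.1 = p.2} := by
      have h : {p : X × X | p.1 = p.2} = {p : X × X | p.1.1 = p.2.1} ∩
          {p : X × X | p.1.2 = p.2.2} := by
        ext p
        exact Prod.ext_iff
      rw [h]
      have h5 : MeasurableSet {q : ℕ × ℕ | q.1 = q.2} := (Set.to_countable _).measurableSet
      have h6 : MeasurableSet {p : X × X | p.1.1 = p.2.1} :=
        ((measurable_fst.comp measurable_fst).prodMk (measurable_fst.comp measurable_snd)) h5
      exact (h6.inter (eq_meas3 (measurable_snd.comp measurable_fst)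
        (measurable_snd.comp measurable_snd))).ana
    have h1 : MeasurableSet {p : X × X | p.1.1 = 1} :=
      (measurable_fst.comp measurable_fst) (measurableSet_singleton 1)
    have h2 : MeasurableSet {p : X × X | p.2.1 = 1} :=
      (measurable_fst.comp measurable_snd) (measurableSet_singleton 1)
    have h3 : Analytic {p : X × X | S1 p.1.2 p.2.2} :=
      S1_analytic.preimage (f := fun p : X × X => (p.1.2, p.2.2))
        ((measurable_snd.comp measurable_fst).prodMk (measurable_snd.comp measurable_snd))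
    have h4 : Analytic {p : X × X | S1 p.2.2 p.1.2} :=
      swap_analytic (R := fun s t => S1 s.2 t.2) h3
    exact h0.union (h1.ana.inter (h2.ana.inter (h3.inter h4)))
  · rcases h with rfl | ⟨h1, h2, h3, h4⟩
    · exact Or.inl rfl
    · exact Or.inr ⟨h2, h1, h4, h3⟩

theorem F_sub {s t : X} (h : F s t) : E s t := by
  rcases h with rfl | ⟨h1, h2, _, _⟩
  · exact ⟨S_qo.refl s, S_qo.refl s⟩
  · exact ⟨Or.inr ⟨by omega, by omega⟩, Or.inr ⟨by omega, by omega⟩⟩

theorem E_red_F : BRed E F := by
  classical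
  have h0 : MeasurableSet {s : X | s.1 = 0} := measurable_fst (measurableSet_singleton 0)
  refine ⟨fun s => if s.1 = 0 then (1, s.2) else (2, (fun _ => 0, (fun _ => 0, fun _ => 0))),
    Measurable.ite h0 (measurable_const.prodMk measurable_snd) measurable_const,
    fun s t => ?_⟩
  unfold E F S
  by_cases hs : s.1 = 0 <;> by_cases ht : t.1 = 0
  · simp only [hs, ht, if_true, ne_eq, not_true_eq_false, and_false, or_false, true_and,
      Prod.mk.injEq]
    constructor
    · rintro ⟨h1, h2⟩
      exact Or.inr ⟨h1, h2⟩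
    · rintro (h | h)
      · rw [h]
        exact ⟨S1_refl _, S1_refl _⟩
      · exact h
  · simp [hs, ht]
  · simp [hs, ht]
  · simp [hs, ht]

theorem univ_F : InvUniv S F := by
  intro Z _ _ R hR
  obtain ⟨a₀, ha₀⟩ : A.Nonempty := by
    by_contra h
    rw [Set.not_nonempty_iff_eq_empty] at h
    exact A_not (by rw [h]; exact MeasurableSet.empty)
  rcases isEmpty_or_nonempty Z with hZ | hZ
  · refine ⟨∅, MeasurableSet.empty, fun x y _ h => h.elim, ?_, ?_⟩
    · refine ⟨fun b => b.2.elim, ?_, fun b => b.2.elim⟩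
      have : IsEmpty (∅ : Set X) := ⟨fun b => b.2⟩
      exact measurable_of_empty _
    · exact ⟨fun z => isEmptyElim z, measurable_of_empty _, fun z => isEmptyElim z⟩
  · obtain ⟨j₀, hj₀, hj₀i⟩ := MeasurableSpace.measurable_injection_nat_bool_of_countablySeparated Z
    let j : Z → Y := fun z n => (j₀ z n).toNat
    have hj : Measurable j := by
      refine measurable_pi_lambda _ fun n => ?_
      exact (measurable_of_countable Bool.toNat).comp ((measurable_pi_apply n).comp hj₀)
    have hji : Function.Injective j := by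
      intro z z' h
      apply hj₀i
      funext n
      have h1 := congrFun h n
      simp only [j] at h1
      cases h2 : j₀ z n <;> cases h3 : j₀ z' n <;> simp_all
    have hje : MeasurableEmbedding j := hj.measurableEmbedding hji
    obtain ⟨r, hr, hrj⟩ := hje.exists_measurable_extend measurable_id fun _ => hZ
    have hrj' : ∀ z, r (j z) = z := fun z => congrFun hrj z
    have hR' : AnalyticQO fun p q : Y => R (r p) (r q) :=
      ⟨fun p => hR.refl _, fun p q s => hR.trans _ _ _, hR.analytic.preimage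
        (f := fun p : Y × Y => (r p.1, r p.2))
        ((hr.comp measurable_fst).prodMk (hr.comp measurable_snd))⟩
    obtain ⟨c, hc⟩ := U_univ hR'
    let B : Set X := {s | s.1 = 0 ∧ s.2.1 = a₀ ∧ s.2.2.1 = c}
    have hS : ∀ s ∈ B, ∀ t ∈ B, S s t ↔ R (r s.2.2.2) (r t.2.2.2) := by
      rintro ⟨i, a, d, p⟩ ⟨h1, h2, h3⟩ ⟨i', a', d', q⟩ ⟨h4, h5, h6⟩
      dsimp only at h1 h2 h3 h4 h5 h6
      subst h1 h2 h3 h4 h5 h6
      rw [hc p q]
      unfold S S1
      simp only [ne_eq, not_true_eq_false, and_self, or_false, true_and, Prod.mk.injEq]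
      constructor
      · rintro (rfl | h)
        · exact ReflTransGen.refl
        · exact h.2.2
      · intro h
        exact Or.inr ⟨ha₀, ha₀, h⟩
    refine ⟨B, ?_, ?_, ?_, ?_⟩
    · have h1 : MeasurableSet {s : X | s.1 = 0} := measurable_fst (measurableSet_singleton 0)
      have h2 : MeasurableSet {s : X | s.2.1 = a₀} :=
        (measurable_fst.comp measurable_snd) (measurableSet_singleton a₀)
      have h3 : MeasurableSet {s : X | s.2.2.1 = c} :=
        (measurable_fst.comp (measurable_snd.comp measurable_snd)) (measurableSet_singleton c)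
      exact h1.inter (h2.inter h3)
    · rintro s t (rfl | ⟨h1, _, _, _⟩) hs
      · exact hs
      · have h2 : s.1 = 0 := hs.1
        omega
    · refine ⟨fun s => r s.1.2.2.2, ?_, fun s t => hS s.1 s.2 t.1 t.2⟩
      exact hr.comp (measurable_snd.comp (measurable_snd.comp
        (measurable_snd.comp measurable_subtype_coe)))
    · refine ⟨fun z => ⟨(0, (a₀, (c, j z))), rfl, rfl, rfl⟩, ?_, fun z z' => ?_⟩
      · exact (measurable_const.prodMk (measurable_const.prodMk
          (measurable_const.prodMk hj))).subtype_mk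
      · have h := hS ((0, (a₀, (c, j z))) : X) ⟨rfl, rfl, rfl⟩ ((0, (a₀, (c, j z'))) : X)
          ⟨rfl, rfl, rfl⟩
        dsimp only at h
        rw [hrj', hrj'] at h
        exact h.symm

theorem not_univ_E : ¬ InvUniv S E := by
  intro h
  have hR : AnalyticQO fun x y : Bool => x ≤ y := by
    refine ⟨fun x => le_rfl, fun x y z => le_trans, ?_⟩
    exact (Set.to_countable _).measurableSet.ana
  obtain ⟨B, hB, hinv, ⟨f, -, hf⟩, ⟨g, -, hg⟩⟩ := h Bool (fun x y => x ≤ y) hR
  have h1 : S (g false).1 (g true).1 := (hg false true).1 (by decide)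
  have h2 : ¬ S (g true).1 (g false).1 := fun h => absurd ((hg true false).2 h) (by decide)
  have h3 : f (g false) = false ∧ f (g true) = true := by
    have h4 := (hf (g false) (g true)).1 h1
    have h5 := (hf (g true) (g false)).not.1 h2
    revert h4 h5
    cases f (g false) <;> cases f (g true) <;> decide
  have h4 : (g false).1.1 = 0 ∧ (g true).1.1 = 0 ∧ S1 (g false).1.2 (g true).1.2 := by
    rcases h1 with h | h
    · exact h
    · exact absurd (Or.inr ⟨h.2, h.1⟩) h2
  have h5 : (g false).1.2.1 ∈ A := by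
    rcases h4.2.2 with h | h
    · exact absurd (Or.inl ⟨h4.2.1, h4.1, Or.inl h.symm⟩) h2
    · exact h.1
  -- the section of `B`
  let D : Set Y := {a | ((0, (a, (g false).1.2.2)) : X) ∈ B}
  have hD : MeasurableSet D :=
    (measurable_const.prodMk (measurable_id.prodMk measurable_const)) hB
  have hAD : A ⊆ D := by
    intro a ha
    refine hinv (g false).1 _ ⟨Or.inl ⟨h4.1, rfl, ?_⟩, Or.inl ⟨rfl, h4.1, ?_⟩⟩ (g false).2
    · exact Or.inr ⟨h5, ha, rfl, ReflTransGen.refl⟩
    · exact Or.inr ⟨ha, h5, rfl, ReflTransGen.refl⟩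
  obtain ⟨a, haD, haA⟩ : ∃ a ∈ D, a ∉ A := by
    by_contra hn
    push Not at hn
    exact A_not (by rwa [Set.Subset.antisymm hAD hn])
  have key : ∀ b : B, b.1.1 = 0 → b.1.2.1 ∈ A → f ⟨_, haD⟩ = f b → False := by
    intro b hb0 hbA hfb
    have h6 : S ((0, (a, (g false).1.2.2)) : X) b.1 := (hf ⟨_, haD⟩ b).2 (le_of_eq hfb)
    rcases h6 with ⟨_, _, h | h⟩ | ⟨h, _⟩
    · apply haA
      have : a = b.1.2.1 := congrArg Prod.fst h
      rw [this]
      exact hbA
    · exact haA h.1
    · exact h rfl
  have h6 : (g true).1.2.1 ∈ A := by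
    rcases h4.2.2 with h | h
    · exact absurd (Or.inl ⟨h4.2.1, h4.1, Or.inl h.symm⟩) h2
    · exact h.2.1
  cases hfa : f ⟨_, haD⟩ with
  | false => exact key (g false) h4.1 h5 (by rw [hfa, h3.1])
  | true => exact key (g true) h4.2.1 h6 (by rw [hfa, h3.2])

end Pool.Agent.Q116.IU
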